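import Pool.Agent.N483.KM.FinB

/-!
# The hyperplane conjecture of KLS is stable under a bounded Brunn-Minkowski deficit

Q1 for all symmetric convex bodies `L ⊂ ℝⁿ` for which there is a convex body `K ⊂ ℝⁿ` (symmetric or not)
which satisfies the inequality of Kannan, Lovasz and Simonovits, in the form `WeakPoincare A`, with

`|(K + L) / 2| ≤ √s (|K| |L|)^{1/2}`,

that is if the Brunn-Minkowski inequality (in the multiplicative form `|(K + L) / 2| ≥ √(|K| |L|)`) is
sharp up to a constant factor for `K` and `L`. Nothing is assumed about the position of the bodies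
(the condition does not change under translations), their volumes may be different, and neither body
needs to be symmetric. The constant depends on `s` and on the constants of `K`, and not on the dimension.
The hypothesis on `K` is `WeakPoincare A`: weak Poincare inequalities `Var v ≤ δ + A(δ) σ E ‖∇ v‖²` for all
linear images with variances at most `σ`, all `δ > 0` and `|v| ≤ 1`, where `A` is any function which is
fixed in advance. Bodies with a Poincare inequality with constant `c₀` in isotropic position have
`A(δ) = c₀ / (4 δ)`. `L` satisfies such inequalities too, so the theorem can be iterated.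

E. Milman (On the role of convexity in isoperimetry, spectral gap and concentration, Invent. Math.
2009) proves that the constants of `K` and `L` are comparable if `|K ∩ L| ≥ max (|K|, |L|) / s`. This follows
from the theorem (twice, by way of `K ∩ L`; theorem `overlap`), but in the theorem `K` and `L` may be
disjoint, and the intersection of `K` with all translates of `L` may be much smaller than `K`: for the
cube and the box with side lengths `1 ± n^{-1/2}` (as many of both signs) the deficit is bounded and
the intersections have volume at most `exp(-c √n)`. For `L = -K` the condition is `|K - K| ≤ √s 2^n |K|`.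
Eldan and Klartag (Dimensionality and the stability of the Brunn-Minkowski inequality, 2014) study
pairs of convex bodies under the same condition `|(K + L) / 2| ≤ 5 √(|K| |L|)`; they show that the
covariance matrices and most of the marginals of `K` and `L` are near to each other, given bounds
for the thin shell. The theorem says that the isoperimetric inequality of Kannan, Lovasz and
Simonovits itself passes from `K` to `L`.

Method. (1) `K` and a dilate `L'` of `L` have the same volume and `|(K + L') / 2| ≤ s |K|` (concavity of the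
logarithm). (2) `M = {(x, t) | 0 ≤ t ≤ 1, x ∈ (1 - t) K + t L'}` is a convex body in
`ℝⁿ × ℝ` with sections `K` for `t = 0` and `L'` for `t = 1`. By the Brunn-Minkowski inequality all of its
sections have volume between `|K|` and `s² |K|` or so. (3) So both `K` and `L'` are large sections of `M`,
and the theorem on large sections (`LargeSections`), in its form for two sections, applies: let `P`
be a linear map such that `P x` has variances at most `σ` on `L'`. There is a linear map `B` such that `P x - B t`
has variances at most `C σ` on `M`, hence on all sections of `M`. The concentration radii of the laws of `P x - B t`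
on two sections with a nearly maximal affinity (sections whose volumes are nearly equal) are
comparable; a chain of boundedly many such sections connects `K` and `L'`, because the volumes differ
at most by a constant factor. This is proved with the Prekopa-Leindler inequality in the Gaussian
channel; see `LargeSections` for the method. (4) The passage from the concentration of all linear images to the
isoperimetric inequality is that of `ImagesOfSections`.

The lemmas were formalised by helpers 327, 738, 348, the authors of the lemmas of `LargeSections`,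
and 483.
-/

set_option autoImplicit false

namespace Pool.Agent.Results.MP_dc1397_gt.BrunnMinkowskiDeficit

open MeasureTheory Set
open scoped ENNReal InnerProductSpace Pointwise

/-- Euclidean space of dimension `n` -/
abbrev Euc (n : ℕ) : Type := EuclideanSpace ℝ (Fin n)

/-- the uniform probability measure on `K` -/
noncomputable def unif {n : ℕ} (K : Set (Euc n)) : Measure (Euc n) :=
  (volume K)⁻¹ • volume.restrict K

/-- The inequalities `Var v(P x) ≤ δ + A(δ) σ E ‖∇ v(P x)‖²` for all `δ > 0`, all linear images `P x` of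
`x` (of law `μ`), all bounds `σ` for the variances of the marginals of `P x` in directions of length
one, and all `C¹` functions `v` with `|v| ≤ 1` and bounded gradient. They follow, with
`A(δ) = c₀ / (4 δ)`, from the Poincare inequality with constant `c₀` for `μ` in isotropic position. -/
def WeakPoincare (A : ℝ → ℝ) {M : ℕ} (μ : Measure (Euc M)) : Prop :=
  ∀ δ : ℝ, 0 < δ → ∀ (k : ℕ) (P : Euc M →ₗ[ℝ] Euc k) (σ : ℝ), 0 < σ →
  (∀ θ : Euc k, ‖θ‖ = 1 → ProbabilityTheory.variance (fun x => ⟪P x, θ⟫_ℝ) μ ≤ σ) →
  ∀ (v : Euc k → ℝ) (C : ℝ), ContDiff ℝ 1 v → (∀ y, |v y| ≤ 1) → (∀ y, ‖fderiv ℝ v y‖ ≤ C) →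
  ProbabilityTheory.variance (fun x => v (P x)) μ ≤ δ + A δ * σ * ∫ x, ‖fderiv ℝ v (P x)‖ ^ 2 ∂μ

/-- convex bodies -/
structure Body {n : ℕ} (K : Set (Euc n)) : Prop where
  comp : IsCompact K
  conv : Convex ℝ K
  int : (interior K).Nonempty

/-- the Lebesgue measure of a Euclidean space -/
noncomputable def lebesgue (F : Type) [NormedAddCommGroup F] [InnerProductSpace ℝ F]
    [FiniteDimensional ℝ F] [MeasurableSpace F] [BorelSpace F] : Measure F := volume

/-- the Lebesgue measure (of the Euclidean space `W`) of the section `Ω ∩ W` by a subspace `W` -/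
noncomputable def areaIn {F : Type} [NormedAddCommGroup F] [InnerProductSpace ℝ F]
    [FiniteDimensional ℝ F] [MeasurableSpace F] [BorelSpace F] (W : Submodule ℝ F) (Ω : Set F) :
    ℝ≥0∞ := lebesgue W {y : W | (y : F) ∈ Ω}

section defs

variable {κ : Type} [Fintype κ]

open Classical in
/-- divergence of a vector field on `ℝ^κ` -/
noncomputable def divergence (X : EuclideanSpace ℝ κ → EuclideanSpace ℝ κ)
    (x : EuclideanSpace ℝ κ) : ℝ :=
  ∑ i, fderiv ℝ X x (EuclideanSpace.single i 1) i

/-- `C¹` vector fields with compact support in `Ω` and `‖X‖ ≤ 1` -/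
structure Test (Ω : Set (EuclideanSpace ℝ κ)) (X : EuclideanSpace ℝ κ → EuclideanSpace ℝ κ) :
    Prop where
  diff : ContDiff ℝ 1 X
  comp : HasCompactSupport X
  sub : tsupport X ⊆ Ω
  le : ∀ x, ‖X x‖ ≤ 1

/-- the (De Giorgi) perimeter `P(E; Ω)` of `E` relative to the open set `Ω` -/
noncomputable def perimeter (E Ω : Set (EuclideanSpace ℝ κ)) : ℝ≥0∞ :=
  ⨆ (X : EuclideanSpace ℝ κ → EuclideanSpace ℝ κ) (_ : Test Ω X),
    ENNReal.ofReal (∫ x in E, divergence X x)

/-- the area (Lebesgue measure in the hyperplane `a^⊥`) of the central section of `Ω` by `a^⊥` -/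
noncomputable def sectionArea (Ω : Set (EuclideanSpace ℝ κ)) (a : EuclideanSpace ℝ κ) : ℝ≥0∞ :=
  areaIn (Submodule.span ℝ {a})ᗮ Ω

/-- some central hyperplane section has area at most `C P(E; Ω)` for every measurable `E ⊆ Ω` with
`|E| = |Ω| / 2` -/
def HyperplaneBound (C : ℝ) (Ω : Set (EuclideanSpace ℝ κ)) : Prop :=
  ∃ a : EuclideanSpace ℝ κ, a ≠ 0 ∧ ∀ E : Set (EuclideanSpace ℝ κ), MeasurableSet E → E ⊆ Ω →
    volume E = volume Ω / 2 → sectionArea Ω a ≤ ENNReal.ofReal C * perimeter E Ω

/-- the perimeter is the one used in the proof -/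
theorem perimeter_eq (E Ω : Set (EuclideanSpace ℝ κ)) :
    Pool.Agent.W695.KH.per E Ω = perimeter E Ω := by
  unfold perimeter Pool.Agent.W695.KH.per
  refine iSup_congr fun X => ?_
  refine iSup_congr_Prop ⟨fun h => ⟨h.1, h.2.1, h.2.2.1, h.2.2.2⟩,
    fun h => ⟨h.diff, h.comp, h.sub, h.le⟩⟩ fun _ => rfl

end defs

theorem unif_prob {n : ℕ} {K : Set (Euc n)} (h1 : IsCompact K) (h3 : (interior K).Nonempty) :
    IsProbabilityMeasure (unif K) :=
  Pool.Agent.R754.KG.un_prob (Pool.Agent.R755.KF.vol_ne h3) h1.measure_lt_top.ne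

theorem pd_of {A : ℝ → ℝ} {s n : ℕ} {K L : Set (Euc n)} (hK : Body K) (hL : Body L)
    (hA : WeakPoincare A (unif K)) (hd : volume ((1 / 2 : ℝ) • (K + L)) ^ 2 ≤ s * (volume K * volume L)) :
    Pool.Agent.N483.KM.PD A s n L := by
  have hp := unif_prob hK.comp hK.int
  obtain ⟨B, hB⟩ := Pool.Agent.R755.KS.un_bdd hK.comp
  exact ⟨K, hK.comp, hK.conv, hK.int, Pool.Agent.R755.KS.km_of_wpf (μ := unif _) hB hA, hL.comp,
    hL.conv, hL.int, hd⟩

theorem weakPoincare (A : ℝ → ℝ) (s : ℕ) : ∃ A' : ℝ → ℝ, ∀ (n : ℕ) (K L : Set (Euc n)), Body K →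
    Body L → WeakPoincare A (unif K) →
    volume ((1 / 2 : ℝ) • (K + L)) ^ 2 ≤ s * (volume K * volume L) → WeakPoincare A' (unif L) := by
  obtain ⟨A', -, H⟩ := Pool.Agent.N483.KM.pd_km A s
  refine ⟨A', fun n K L hK hL hA hd => ?_⟩
  obtain ⟨h1, h2, h3, h4⟩ := H n L (pd_of hK hL hA hd)
  have hp := unif_prob h1 h3
  obtain ⟨B, hB⟩ := Pool.Agent.R755.KS.un_bdd h1
  exact Pool.Agent.R755.KS.wpf_of_km (μ := unif L) hB h4

/-- from the functional inequality to central sections -/
theorem hyper_of : ∀ c : ℝ, 0 < c → ∃ C : ℝ, 0 < C ∧ ∀ (n : ℕ) (P : Set (Euc n)), 1 ≤ n →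
    IsCompact P → Convex ℝ P → (interior P).Nonempty →
    Pool.Agent.Y506.RG.Star c (Pool.Agent.Y506.PV.ind P) → (∀ x ∈ P, -x ∈ P) →
    HyperplaneBound C (interior P) := by
  intro c hc
  obtain ⟨C, hC, H'⟩ := Pool.Agent.Y151.PV.hyp
  refine ⟨C * c, by positivity, fun n P hn h1 h2 h3 h4 hs => ?_⟩
  have hcl : closure (interior P) = P := by
    rw [h2.closure_interior_eq_closure_of_nonempty_interior h3, h1.isClosed.closure_eq]
  have hsi : ∀ x ∈ interior P, -x ∈ interior P := by
    intro x hx
    have hop : IsOpen ((fun y => -y) ⁻¹' interior P) := isOpen_interior.preimage continuous_neg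
    have hsub : (fun y => -y) ⁻¹' interior P ⊆ P := by
      intro y hy
      have := hs _ (interior_subset hy)
      rwa [neg_neg] at this
    exact interior_maximal hsub hop (by simpa using hx)
  have h0 : (0 : Euc n) ∈ interior P := by
    obtain ⟨x, hx⟩ := h3
    have h := h2.interior hx (hsi x hx) (by norm_num : (0 : ℝ) ≤ 1 / 2)
      (by norm_num : (0 : ℝ) ≤ 1 / 2) (by norm_num)
    rwa [smul_neg, add_neg_cancel] at h
  obtain ⟨a, ha, h⟩ := H' n hn (interior P) isOpen_interior h2.interior
    (h1.isBounded.subset interior_subset) h0 hsi c hc (by rw [hcl]; exact h4)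
  refine ⟨a, ha, fun E hE hEΩ hvol => ?_⟩
  rw [← perimeter_eq]
  by_cases hp : Pool.Agent.W695.KH.per E (interior P) = ⊤
  · rw [hp, ENNReal.mul_top (ENNReal.ofReal_pos.2 (by positivity)).ne']
    exact le_top
  · refine (h E hE hEΩ hvol _ (Pool.Agent.W695.KH.perLe_toReal E _ hp)).trans (le_of_eq ?_)
    rw [ENNReal.ofReal_mul (by positivity), ENNReal.ofReal_toReal hp]

/-- **The hyperplane conjecture is stable under a bounded Brunn-Minkowski deficit.** For all functions
`A : ℝ → ℝ` and all `s` there are a function `A'` and a constant `C > 0` such that for all `n ≥ 1`, all convex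
bodies `K ⊂ ℝⁿ` with `WeakPoincare A` and all symmetric convex bodies `L ⊂ ℝⁿ` with
`|(K + L) / 2|² ≤ s |K| |L|`: `L` satisfies `WeakPoincare A'` and its interior `Ω` has a central hyperplane section
`Ω ∩ a^⊥` with `H_{n-1}(Ω ∩ a^⊥) ≤ C P(E; Ω)` for every measurable `E ⊆ Ω` with `|E| = |Ω| / 2`. -/
theorem result : ∀ (A : ℝ → ℝ) (s : ℕ), ∃ (A' : ℝ → ℝ) (C : ℝ), 0 < C ∧ ∀ (n : ℕ) (K L : Set (Euc n)),
    1 ≤ n → Body K → Body L → WeakPoincare A (unif K) →
    volume ((1 / 2 : ℝ) • (K + L)) ^ 2 ≤ s * (volume K * volume L) → (∀ x ∈ L, -x ∈ L) →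
    WeakPoincare A' (unif L) ∧ HyperplaneBound C (interior L) := by
  intro A s
  obtain ⟨A', HA⟩ := weakPoincare A s
  obtain ⟨c, hc, H⟩ := Pool.Agent.N483.KM.pd_star A s
  obtain ⟨C, hC, H'⟩ := hyper_of c hc
  refine ⟨A', C, hC, fun n K L hn hK hL hA hd hs => ⟨HA n K L hK hL hA hd, ?_⟩⟩
  obtain ⟨h1, h2, h3, h4⟩ := H n L (pd_of hK hL hA hd)
  exact H' n L hn h1 h2 h3 h4 hs

/-- intersections of large volume -/
theorem inter_body {s n : ℕ} {K L : Set (Euc n)} (hK : Body K) (hL : Body L)
    (h : volume K ≤ s * volume (K ∩ L)) : Body (K ∩ L) := by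
  have hc : Convex ℝ (K ∩ L) := hK.conv.inter hL.conv
  refine ⟨hK.comp.inter hL.comp, hc, Pool.Agent.R755.KF.int_of_vol hc ?_⟩
  intro h0
  rw [h0, mul_zero] at h
  exact Pool.Agent.R755.KF.vol_ne hK.int (le_antisymm h (zero_le))

/-- the deficit of a body and a subset of large volume -/
theorem deficit_subset {s n : ℕ} {K L : Set (Euc n)} (hK : Convex ℝ K) (h : L ⊆ K)
    (hv : volume K ≤ s * volume L) :
    volume ((1 / 2 : ℝ) • (K + L)) ^ 2 ≤ s * (volume K * volume L) := by
  have h1 : (1 / 2 : ℝ) • (K + L) ⊆ K := by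
    rintro _ ⟨_, ⟨x, hx, y, hy, rfl⟩, rfl⟩
    have := hK hx (h hy) (by norm_num : (0 : ℝ) ≤ 1 / 2) (by norm_num : (0 : ℝ) ≤ 1 / 2) (by norm_num)
    simpa [smul_add] using this
  calc volume ((1 / 2 : ℝ) • (K + L)) ^ 2 ≤ volume K ^ 2 := by gcongr
    _ = volume K * volume K := sq _
    _ ≤ volume K * (s * volume L) := by gcongr
    _ = s * (volume K * volume L) := by ring

/-- The case of E. Milman: `|K ∩ L| ≥ max (|K|, |L|) / s`. -/
theorem overlap : ∀ (A : ℝ → ℝ) (s : ℕ), ∃ (A' : ℝ → ℝ) (C : ℝ), 0 < C ∧ ∀ (n : ℕ) (K L : Set (Euc n)),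
    1 ≤ n → Body K → Body L → WeakPoincare A (unif K) → volume K ≤ s * volume (K ∩ L) →
    volume L ≤ s * volume (K ∩ L) → (∀ x ∈ L, -x ∈ L) →
    WeakPoincare A' (unif L) ∧ HyperplaneBound C (interior L) := by
  intro A s
  obtain ⟨A1, H1⟩ := weakPoincare A s
  obtain ⟨A2, c, hc, H2⟩ := result A1 s
  refine ⟨A2, c, hc, fun n K L hn hK hL hA h1 h2 hs => ?_⟩
  have hI := inter_body hK hL h1
  have h3 := H1 n K (K ∩ L) hK hI hA (deficit_subset hK.conv inter_subset_left h1)
  refine H2 n (K ∩ L) L hn hI hL h3 ?_ hs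
  have h4 := deficit_subset hL.conv (inter_subset_right : K ∩ L ⊆ L) h2
  rwa [add_comm, mul_comm (volume L)] at h4

end Pool.Agent.Results.MP_dc1397_gt.BrunnMinkowskiDeficit
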