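import Pool.Agent.N483.KM.Gbs

/-!
# The hyperplane conjecture of KLS: from Gibbs densities to level sets

Q1 for symmetric bodies given by finitely many convex functions `S_1, …, S_r ≥ 0` on a Euclidean space
`ℝ^N ≅ ℝ^m × ℝ^q` (with bounded joint sublevel sets), that is for

`K = {x ∈ ℝ^m | S_j(x, 0) ≤ e_j for all j ≤ r}` (with a point where all inequalities are strict),

and for their symmetric images under affine maps of `ℝ^m` onto `ℝⁿ`, `m ≤ n + p`, if the Gibbs densities
(canonical ensembles)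

`exp (-∑_j l_j S_j(z) - ⟪a, u⟫)`, `z = (x, u) ∈ ℝ^N`, all `l_j > 0` and `a ∈ ℝ^q`,

are integrable and satisfy the inequality of Kannan, Lovasz and Simonovits, in the weak form
`WeakPoincare A` (`Var v ≤ δ + A(δ) σ E ‖∇ v‖²` for all linear images with variances at most `σ`, all `δ > 0`
and `|v| ≤ 1`; the function `A` is fixed in advance; a Poincare inequality with constant `c₀` in isotropic
position gives `A(δ) = c₀ / (4 δ)`). The constant depends only on `A`, `r`, `q`, `p`. So, for the inequality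
of Kannan, Lovasz and Simonovits, the microcanonical ensembles, with any finite number of constraints
and any energies, are not worse than the canonical ones; nothing is assumed about the structure of
the `S_j` (in `FewInequalities` they are sums of functions of blocks). The functions and `K` need not be
symmetric, only the image.

Kolesnikov and Milman (The KLS isoperimetric conjecture for generalized Orlicz balls, Ann. Probab.
2018) compare `exp(-S)` and `{S ≤ e}` for `r = 1`, `q = 0` and those levels `e` for which the two measures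
are close (typical levels for some Gibbs density). With `r ≥ 2` constraints, or `q ≥ 1` linear equations,
the body may be exponentially small in all the Gibbs measures: the comparison is not a perturbation.

Method. (1) Supporting functional: the volume `R(e', u)` of `{x | S_j(x, u) ≤ e'_j}` is a log-concave
function of `(e', u)`, so `R(e', u) ≤ 2 R(e, 0) exp (l·(e' - e) + ⟪a, u⟫)` for suitable `l_j > 0` and
`a ∈ ℝ^q`. (2) With these `l, a` consider for large `M` the body
`B = {(z, e', y) | S_j(z) ≤ e'_j, |y_i| ≤ (1 - (l·e' + ⟪a, u(z)⟫) / M) / 2, i ≤ M}`. Its image under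
`(z, e', y) ↦ (z, y)` is the body over the density `(1 - (l·S(z) + ⟪a, u⟫) / M)₊^M`, which tends to the Gibbs
density for `M → ∞`. So the image, and therefore `B` (`CentredFibrations`: `lift`), has the concentration
property. (3) `K × cube` is, by (1), one of the large sections of `B` of codimension at most `r + q`, and the
theorem of `LargeSections` gives the concentration for `K`: the inequality passes from a convex body
to its sections of bounded codimension which are not much smaller than the largest parallel ones.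
(4) The images and the passage from the concentration of all linear images to central sections are
those of `ImagesOfSections`.

The lemmas were formalised by helpers 232, 263, 334, 385, 426, 438, 697, 930, 933, the authors of the
lemmas of `LargeSections`, and 483.
-/

set_option autoImplicit false

namespace Pool.Agent.Results.MP_dc1397_gt.GibbsLevelSets

open MeasureTheory Set
open scoped ENNReal InnerProductSpace

/-- Euclidean space of dimension `n` -/
abbrev Euc (n : ℕ) : Type := EuclideanSpace ℝ (Fin n)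

/-- the probability measure on `ℝⁿ` with density proportional to `w` -/
noncomputable def law {n : ℕ} (w : Euc n → ℝ) : Measure (Euc n) :=
  (∫⁻ x, ENNReal.ofReal (w x))⁻¹ • volume.withDensity fun x => ENNReal.ofReal (w x)

/-- The inequalities `Var v(P x) ≤ δ + A(δ) σ E ‖∇ v(P x)‖²` for all `δ > 0`, all linear images `P x` of
`x` (of law `μ`), all bounds `σ` for the variances of the marginals of `P x` in directions of length
one, and all `C¹` functions `v` with `|v| ≤ 1` and bounded gradient. They follow, with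
`A(δ) = c₀ / (4 δ)`, from the Poincare inequality with constant `c₀` for `μ` in isotropic position. -/
def WeakPoincare (A : ℝ → ℝ) {M : ℕ} (μ : Measure (Euc M)) : Prop :=
  ∀ δ : ℝ, 0 < δ → ∀ (k : ℕ) (P : Euc M →ₗ[ℝ] Euc k) (σ : ℝ), 0 < σ →
  (∀ θ : Euc k, ‖θ‖ = 1 → ProbabilityTheory.variance (fun x => ⟪P x, θ⟫_ℝ) μ ≤ σ) →
  ∀ (v : Euc k → ℝ) (C : ℝ), ContDiff ℝ 1 v → (∀ y, |v y| ≤ 1) → (∀ y, ‖fderiv ℝ v y‖ ≤ C) →
  ProbabilityTheory.variance (fun x => v (P x)) μ ≤ δ + A δ * σ * ∫ x, ‖fderiv ℝ v (P x)‖ ^ 2 ∂μ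

/-- convex functions `S_1, …, S_r ≥ 0` with bounded joint sublevel sets -/
structure Energies {r N : ℕ} (S : Fin r → Euc N → ℝ) : Prop where
  convex : ∀ j, ConvexOn ℝ univ (S j)
  nonneg : ∀ j z, 0 ≤ S j z
  bdd : ∀ s : Fin r → ℝ, Bornology.IsBounded {z | ∀ j, S j z ≤ s j}

/-- the Gibbs density `exp (-∑_j l_j S_j(z) - ⟪a, u⟫)`, `z = ψ(x, u)`, `x ∈ ℝ^m`, `u ∈ ℝ^q` -/
noncomputable def gibbs {r m q N : ℕ} (ψ : (Euc m × Euc q) ≃ₗ[ℝ] Euc N) (S : Fin r → Euc N → ℝ)
    (l : Fin r → ℝ) (a : Euc q) (z : Euc N) : ℝ :=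
  Real.exp (-(∑ j, l j * S j z + ⟪a, (ψ.symm z).2⟫_ℝ))

/-- all Gibbs densities with `l_j > 0` are integrable and satisfy `WeakPoincare A` -/
def Canonical (A : ℝ → ℝ) {r m q N : ℕ} (ψ : (Euc m × Euc q) ≃ₗ[ℝ] Euc N)
    (S : Fin r → Euc N → ℝ) : Prop :=
  ∀ (l : Fin r → ℝ) (a : Euc q), (∀ j, 0 < l j) → Integrable (gibbs ψ S l a) ∧
    WeakPoincare A (law (gibbs ψ S l a))

/-- the set `{x ∈ ℝ^m | S_j(ψ(x, 0)) ≤ e_j for all j}` -/
def level {r m q N : ℕ} (ψ : (Euc m × Euc q) ≃ₗ[ℝ] Euc N) (S : Fin r → Euc N → ℝ)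
    (e : Fin r → ℝ) : Set (Euc m) := {x | ∀ j, S j (ψ (x, 0)) ≤ e j}

/-- level sets, with a point where all inequalities are strict, of functions whose Gibbs densities
satisfy `WeakPoincare A` -/
def GibbsLevelSet (A : ℝ → ℝ) (r q : ℕ) {m : ℕ} (K : Set (Euc m)) : Prop :=
  ∃ (N : ℕ) (ψ : (Euc m × Euc q) ≃ₗ[ℝ] Euc N) (S : Fin r → Euc N → ℝ) (e : Fin r → ℝ),
    Energies S ∧ Canonical A ψ S ∧ (∃ x, ∀ j, S j (ψ (x, 0)) < e j) ∧ K = level ψ S e

/-- the Lebesgue measure of a Euclidean space -/
noncomputable def lebesgue (F : Type) [NormedAddCommGroup F] [InnerProductSpace ℝ F]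
    [FiniteDimensional ℝ F] [MeasurableSpace F] [BorelSpace F] : Measure F := volume

/-- the Lebesgue measure (of the Euclidean space `W`) of the section `Ω ∩ W` by a subspace `W` -/
noncomputable def areaIn {F : Type} [NormedAddCommGroup F] [InnerProductSpace ℝ F]
    [FiniteDimensional ℝ F] [MeasurableSpace F] [BorelSpace F] (W : Submodule ℝ F) (Ω : Set F) :
    ℝ≥0∞ := lebesgue W {y : W | (y : F) ∈ Ω}

section defs

variable {κ : Type} [Fintype κ]

open Classical in
/-- divergence of a vector field on `ℝ^κ` -/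
noncomputable def divergence (X : EuclideanSpace ℝ κ → EuclideanSpace ℝ κ)
    (x : EuclideanSpace ℝ κ) : ℝ :=
  ∑ i, fderiv ℝ X x (EuclideanSpace.single i 1) i

/-- `C¹` vector fields with compact support in `Ω` and `‖X‖ ≤ 1` -/
structure Test (Ω : Set (EuclideanSpace ℝ κ)) (X : EuclideanSpace ℝ κ → EuclideanSpace ℝ κ) :
    Prop where
  diff : ContDiff ℝ 1 X
  comp : HasCompactSupport X
  sub : tsupport X ⊆ Ω
  le : ∀ x, ‖X x‖ ≤ 1

/-- the (De Giorgi) perimeter `P(E; Ω)` of `E` relative to the open set `Ω` -/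
noncomputable def perimeter (E Ω : Set (EuclideanSpace ℝ κ)) : ℝ≥0∞ :=
  ⨆ (X : EuclideanSpace ℝ κ → EuclideanSpace ℝ κ) (_ : Test Ω X),
    ENNReal.ofReal (∫ x in E, divergence X x)

/-- the area (Lebesgue measure in the hyperplane `a^⊥`) of the central section of `Ω` by `a^⊥` -/
noncomputable def sectionArea (Ω : Set (EuclideanSpace ℝ κ)) (a : EuclideanSpace ℝ κ) : ℝ≥0∞ :=
  areaIn (Submodule.span ℝ {a})ᗮ Ω

/-- some central hyperplane section has area at most `C P(E; Ω)` for every measurable `E ⊆ Ω` with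
`|E| = |Ω| / 2` -/
def HyperplaneBound (C : ℝ) (Ω : Set (EuclideanSpace ℝ κ)) : Prop :=
  ∃ a : EuclideanSpace ℝ κ, a ≠ 0 ∧ ∀ E : Set (EuclideanSpace ℝ κ), MeasurableSet E → E ⊆ Ω →
    volume E = volume Ω / 2 → sectionArea Ω a ≤ ENNReal.ofReal C * perimeter E Ω

/-- the perimeter is the one used in the proof -/
theorem perimeter_eq (E Ω : Set (EuclideanSpace ℝ κ)) :
    Pool.Agent.W695.KH.per E Ω = perimeter E Ω := by
  unfold perimeter Pool.Agent.W695.KH.per
  refine iSup_congr fun X => ?_
  refine iSup_congr_Prop ⟨fun h => ⟨h.1, h.2.1, h.2.2.1, h.2.2.2⟩,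
    fun h => ⟨h.diff, h.comp, h.sub, h.le⟩⟩ fun _ => rfl

end defs

theorem gibbs_lw {r m q N : ℕ} (ψ : (Euc m × Euc q) ≃ₗ[ℝ] Euc N) {S : Fin r → Euc N → ℝ}
    (hS : Energies S) (l : Fin r → ℝ) (a : Euc q) (hl : ∀ j, 0 < l j)
    (hi : Integrable (gibbs ψ S l a)) : Pool.Agent.N483.KM.LW (gibbs ψ S l a) := by
  have hψs : Continuous ψ.symm := ψ.symm.toLinearMap.continuous_of_finiteDimensional
  have hc : Continuous (gibbs ψ S l a) := by
    have h1 : ∀ j, Continuous (S j) := fun j => (hS.convex j).locallyLipschitz.continuous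
    unfold gibbs
    fun_prop
  have hp : ∀ z, 0 < gibbs ψ S l a z := fun z => Real.exp_pos _
  refine Pool.Agent.N483.KM.lw_of (fun z => (hp z).le) (fun x y t ht ht1 => ?_)
    hc.upperSemicontinuous hi ?_
  · unfold gibbs
    rw [← Real.exp_mul, ← Real.exp_mul, ← Real.exp_add]
    refine Real.exp_le_exp.2 ?_
    have h1 : ∑ j, l j * S j ((1 - t) • x + t • y) ≤
        ∑ j, ((1 - t) * (l j * S j x) + t * (l j * S j y)) := by
      refine Finset.sum_le_sum fun j _ => ?_
      have h2 := (hS.convex j).2 (mem_univ x) (mem_univ y) (by linarith : 0 ≤ 1 - t) ht.le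
        (by ring)
      simp only [smul_eq_mul] at h2
      have h3 := mul_le_mul_of_nonneg_left h2 (hl j).le
      linarith
    rw [Finset.sum_add_distrib, ← Finset.mul_sum, ← Finset.mul_sum] at h1
    rw [map_add, map_smul, map_smul, Prod.snd_add, Prod.smul_snd, Prod.smul_snd, inner_add_right,
      inner_smul_right, inner_smul_right]
    nlinarith
  · rw [integral_pos_iff_support_of_nonneg (fun z => (hp z).le) hi]
    have h1 : Function.support (gibbs ψ S l a) = univ := by
      ext z
      simp [(hp z).ne']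
    rw [h1]
    exact NeZero.pos _

theorem micro_of {A : ℝ → ℝ} {r m q : ℕ} {K : Set (Euc m)} (hm : 1 ≤ m)
    (h : GibbsLevelSet A r q K) : Pool.Agent.N483.KM.Micro A r q m K := by
  obtain ⟨N, ψ, S, e, hS, hA, hx, hK⟩ := h
  refine ⟨hm, N, ψ, S, e, hS.convex, hS.nonneg, hS.bdd, hx, fun l a hl => ?_, hK⟩
  obtain ⟨h1, h2⟩ := hA l a hl
  have h3 := gibbs_lw ψ hS l a hl h1
  exact ⟨h3.adm, (Pool.Agent.N483.KM.wpm_iff h3.adm).1 h2⟩

theorem affine_eq {m n : ℕ} (T : Euc m →ᵃ[ℝ] Euc n) (K : Set (Euc m)) :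
    T '' K = (fun x => T 0 + T.linear x) '' K := by
  refine image_congr fun x _ => ?_
  have h := T.map_vadd 0 x
  rw [vadd_eq_add, add_zero] at h
  rw [h, vadd_eq_add, add_comm]

/-- from the functional inequality to central sections -/
theorem hyper_of : ∀ c : ℝ, 0 < c → ∃ C : ℝ, 0 < C ∧ ∀ (n : ℕ) (P : Set (Euc n)), 1 ≤ n →
    IsCompact P → Convex ℝ P → (interior P).Nonempty →
    Pool.Agent.Y506.RG.Star c (Pool.Agent.Y506.PV.ind P) → (∀ x ∈ P, -x ∈ P) →
    HyperplaneBound C (interior P) := by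
  intro c hc
  obtain ⟨C, hC, H'⟩ := Pool.Agent.Y151.PV.hyp
  refine ⟨C * c, by positivity, fun n P hn h1 h2 h3 h4 hs => ?_⟩
  have hcl : closure (interior P) = P := by
    rw [h2.closure_interior_eq_closure_of_nonempty_interior h3, h1.isClosed.closure_eq]
  have hsi : ∀ x ∈ interior P, -x ∈ interior P := by
    intro x hx
    have hop : IsOpen ((fun y => -y) ⁻¹' interior P) := isOpen_interior.preimage continuous_neg
    have hsub : (fun y => -y) ⁻¹' interior P ⊆ P := by
      intro y hy
      have := hs _ (interior_subset hy)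
      rwa [neg_neg] at this
    exact interior_maximal hsub hop (by simpa using hx)
  have h0 : (0 : Euc n) ∈ interior P := by
    obtain ⟨x, hx⟩ := h3
    have h := h2.interior hx (hsi x hx) (by norm_num : (0 : ℝ) ≤ 1 / 2)
      (by norm_num : (0 : ℝ) ≤ 1 / 2) (by norm_num)
    rwa [smul_neg, add_neg_cancel] at h
  obtain ⟨a, ha, h⟩ := H' n hn (interior P) isOpen_interior h2.interior
    (h1.isBounded.subset interior_subset) h0 hsi c hc (by rw [hcl]; exact h4)
  refine ⟨a, ha, fun E hE hEΩ hvol => ?_⟩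
  rw [← perimeter_eq]
  by_cases hp : Pool.Agent.W695.KH.per E (interior P) = ⊤
  · rw [hp, ENNReal.mul_top (ENNReal.ofReal_pos.2 (by positivity)).ne']
    exact le_top
  · refine (h E hE hEΩ hvol _ (Pool.Agent.W695.KH.perLe_toReal E _ hp)).trans (le_of_eq ?_)
    rw [ENNReal.ofReal_mul (by positivity), ENNReal.ofReal_toReal hp]

/-- **From Gibbs densities to level sets.** For all `A : ℝ → ℝ` and `r, q, p` there is a constant `C > 0`
such that: let `S_1, …, S_r ≥ 0` be convex functions on `ℝ^N ≅ ℝ^m × ℝ^q` with bounded joint sublevel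
sets such that all Gibbs densities `exp (-∑_j l_j S_j(z) - ⟪a, u⟫)`, `l_j > 0`, `a ∈ ℝ^q`, satisfy
`WeakPoincare A`; let `K = {x | S_j(x, 0) ≤ e_j}` (`level`), with a point where all inequalities are strict,
and let `T` be an affine map of `ℝ^m` onto `ℝⁿ`, `1 ≤ n`, `m ≤ n + p`, such that `T K` is symmetric. Then
the interior `Ω` of `T K` has a central hyperplane section `Ω ∩ a^⊥` with
`H_{n-1}(Ω ∩ a^⊥) ≤ C P(E; Ω)` for every measurable `E ⊆ Ω` with `|E| = |Ω| / 2`. -/
theorem result : ∀ (A : ℝ → ℝ) (r q p : ℕ), ∃ C : ℝ, 0 < C ∧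
    ∀ (m n : ℕ) (K : Set (Euc m)) (T : Euc m →ᵃ[ℝ] Euc n), 1 ≤ n → GibbsLevelSet A r q K →
    m ≤ n + p → Function.Surjective T → (∀ x ∈ T '' K, -x ∈ T '' K) →
    HyperplaneBound C (interior (T '' K)) := by
  intro A r q p
  obtain ⟨c, hc, H⟩ := Pool.Agent.N483.KM.micro_star A r q p
  obtain ⟨C, hC, H'⟩ := hyper_of c hc
  refine ⟨C, hC, fun m n K T hn hK hm hT hs => ?_⟩
  have hT' : Function.Surjective T.linear := by rwa [AffineMap.linear_surjective_iff]
  have hmn : n ≤ m := by
    have h1 := LinearMap.finrank_le_finrank_of_surjective hT'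
    simpa using h1
  have h5 := H m n _ T.linear (T 0) (micro_of (hn.trans hmn) hK) hm hT'
  rw [← affine_eq] at h5
  obtain ⟨h1, h2, h3, h4⟩ := h5
  exact H' n _ hn h1 h2 h3 h4 hs

end Pool.Agent.Results.MP_dc1397_gt.GibbsLevelSets
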