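import Pool.Agent.N483.KM.FinP

/-!
# The hyperplane conjecture of KLS for large sections and their extensions

Q1 for the symmetric bodies of a class `Sectional` of convex bodies which is closed under the following
operations. The constant depends on `s` and on the number `h` of operations (and on `A`), but not on
the dimensions.

* (A) Large sections (`large`; this is new): for a body `K ⊂ ℝ^N × ℝ^j`, `j ≤ s`, of the class, the section
  `K_t = {x | (x, t) ∈ K}` belongs to the class if the parallel sections have volume at most `s |K_t|`.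
  So the class is closed under all sections of bounded codimension which are not much smaller than
  the largest section parallel to them.
* (B) Extensions (`extend`; this is new): conversely, every convex body `K ⊂ ℝ^N × ℝ^j`, `j ≤ s`, belongs to
  the class if ONE section `K_t` does, whose parallel sections have volume at most `s |K_t|`. (The
  theorem of `CentredFibrations` and its predecessors is the case where all the sections belong to
  the class.) So, up to constants, the inequality of Kannan, Lovasz and Simonovits for a body is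
  equivalent to the inequality for one of its large sections of bounded codimension.
* (C) Central sections (`central`): the sections of codimension at most `s` through the barycentre.
* (D) Images under affine maps with kernels of dimension at most `s` (`image`), and convex bodies
  with an image in the class under a linear map with a kernel of dimension at most `s` (`lift`).

The class starts with the convex bodies with `WeakPoincare A`, that is with weak Poincare
inequalities `Var v ≤ δ + A(δ) σ E ‖∇ v‖²` for all linear images with variances at most `σ`, all `δ > 0`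
and `|v| ≤ 1`, where `A` is any function which is fixed in advance. Bodies with a Poincare inequality
with constant `c₀` in isotropic position have `A(δ) = c₀ / (4 δ)`. All bodies of the class satisfy such
inequalities, with another function `A` (`weakPoincare`). So (A) says that the inequality of Kannan, Lovasz and
Simonovits is inherited by large sections: for instance all central sections of bounded codimension
of the bodies of `CentredFibrations`, `CompositeBodies`, `Particles`, ... (bodies with a product of
symmetries, unit balls of 1-symmetric or unitarily invariant norms, polytopes with few facets and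
so on) satisfy it; the sections have no symmetry. By (B) it passes from there to all convex bodies
which have such a body as a large section; one may go from body to section to body and so on.

Method. Let `C = K_t` be a section of codimension `j` of a body `K ⊂ ℝ^N × ℝ^j` for which concentration is
known, and let `P` be a linear map on `ℝ^N` such that `P x` has variances at most `σ` on `C`. (1)
Regression: there is a linear map `B` such that `P x - B t` has variances at most `C' σ` on `K`, with `C'`
depending on `j` and on the ratio of `|K_t|` and the maximal volume of the parallel sections (bounds for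
isotropic log-concave densities in dimension `j + 1`). So the same is true for all other large
sections, and the means of `P x - B t` on them are near to each other. (2) Let `r` be the
concentration radius of the law `ν_t` of `P x - B t` on `K_t`: the number for which all sets of
measure at least `p` have `r`-neighbourhoods of measure more than one half, for a fixed small `p`.
Prekopa-Leindler inequality in the Gaussian channel: all sets of measure `4^-(i+j0)` have such
neighbourhoods with radius `(9/8)^i r` (one step: the density of `X + √h Z` on the event `X ∈ B`, raised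
to a power, times that of `X + √h Z`). So Lipschitz functions have fourth moments `C r⁴`, and smoothing with posterior
means (whose gradients are controlled by posterior variances, and these by the Brascamp-Lieb
inequality) gives weak Poincare inequalities `Var f ≤ C / M^{3/2} + M r² E‖∇f‖² / 64` for `|f| ≤ 1`, all
`M ≥ 1`. (3) For two sections `a, b` with `|K_m| ≤ (1 + η) √(|K_a| |K_b|)` for the one half way between them,
the affinity of the laws of `P x - B t + √h Z` satisfies `1 - aff ≤ C (η + D²/h + δ)` at the scale
`h = M r²` (as in `CentredFibrations`, with an error linear in the error `δ` of the weak Poincare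
inequality), and `h (η + 1 - aff_h)` is nondecreasing in `h`, by the Prekopa-Leindler inequality and the
heat equation. Since `M · M^{-3/2} → 0`, also the affinity at a small multiple of `r²` is near to one,
if `r` is much larger than `√σ`. (4) So if the concentration radius of one section in a small window of
parallel sections is (nearly) the largest one and much larger than `√σ`, then there is a Lipschitz function with constant
`4 / r` and a variance bounded below on all sections of the window, hence on `K`, which contradicts
the concentration for `K`. For sections of maximal volume the window has a definite share of `K`.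
(5) All other large sections are connected with the maximal one by a bounded number of steps as in (3),
and the concentration radii of two neighbours differ by at most a constant factor. (6) Lipschitz
functions of `P x` on `K_t` have fourth moments at most `C σ²`, so they concentrate. (7) Extensions: by
(5) the concentration radius of one large section bounds those of all other large sections, and the
concentration on all large sections implies that on `K` (as in `CentredFibrations`). The passage from
the concentration of all linear images to the isoperimetric inequality is that of `ImagesOfSections`.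

Formalised by helpers 27, 123, 130, 152, 157, 227, 232, 264, 277, 306, 342, 348, 383, 401, 434, 456, 488, 521,
523, 546, 692, 833, 868 and 483 with the starting library (modules `R755.KF`, `R755.KS`, `R754.KG`).
-/

set_option autoImplicit false

namespace Pool.Agent.Results.MP_dc1397_gt.LargeSections

open MeasureTheory Set
open scoped ENNReal InnerProductSpace

/-- Euclidean space of dimension `n` -/
abbrev Euc (n : ℕ) : Type := EuclideanSpace ℝ (Fin n)

/-- the uniform probability measure on `K` -/
noncomputable def unif {n : ℕ} (K : Set (Euc n)) : Measure (Euc n) :=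
  (volume K)⁻¹ • volume.restrict K

/-- The inequalities `Var v(P x) ≤ δ + A(δ) σ E ‖∇ v(P x)‖²` for all `δ > 0`, all linear images `P x` of
`x` (of law `μ`), all bounds `σ` for the variances of the marginals of `P x` in directions of length
one, and all `C¹` functions `v` with `|v| ≤ 1` and bounded gradient. They follow, with
`A(δ) = c₀ / (4 δ)`, from the Poincare inequality with constant `c₀` for `μ` in isotropic position. -/
def WeakPoincare (A : ℝ → ℝ) {M : ℕ} (μ : Measure (Euc M)) : Prop :=
  ∀ δ : ℝ, 0 < δ → ∀ (k : ℕ) (P : Euc M →ₗ[ℝ] Euc k) (σ : ℝ), 0 < σ →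
  (∀ θ : Euc k, ‖θ‖ = 1 → ProbabilityTheory.variance (fun x => ⟪P x, θ⟫_ℝ) μ ≤ σ) →
  ∀ (v : Euc k → ℝ) (C : ℝ), ContDiff ℝ 1 v → (∀ y, |v y| ≤ 1) → (∀ y, ‖fderiv ℝ v y‖ ≤ C) →
  ProbabilityTheory.variance (fun x => v (P x)) μ ≤ δ + A δ * σ * ∫ x, ‖fderiv ℝ v (P x)‖ ^ 2 ∂μ

/-- convex bodies -/
structure Body {n : ℕ} (K : Set (Euc n)) : Prop where
  comp : IsCompact K
  conv : Convex ℝ K
  int : (interior K).Nonempty

/-- the section (fibre) over `t` of the set `K ⊂ ℝⁿ ≅ ℝ^N × ℝ^j` -/
def fibre {N j n : ℕ} (e : (Euc N × Euc j) ≃ₗ[ℝ] Euc n) (K : Set (Euc n)) (t : Euc j) :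
    Set (Euc N) := {x | e (x, t) ∈ K}

/-- The class of bodies. It contains the convex bodies whose uniform measure satisfies
`WeakPoincare A` (`base`). Bodies of depth `h + 1` are obtained from those of depth `h` by
* images under affine maps with kernels of dimension at most `s` (`image`), and adding at most `s`
  dimensions (`lift`: all convex bodies `K` with a linear image, under a map with a kernel of dimension
  at most `s`, of depth `h`);
* `large`: the sections of codimension `j ≤ s` such that the parallel sections are at most `s` times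
  larger;
* `extend`: all convex bodies `K ⊂ ℝ^N × ℝ^j`, `j ≤ s`, which have one section parallel to `ℝ^N` of depth
  `h` such that the parallel sections are at most `s` times larger;
* `central`: the sections of codimension `j ≤ s` through the barycentre. -/
inductive Sectional (A : ℝ → ℝ) (s : ℕ) : ℕ → ∀ {n : ℕ}, Set (Euc n) → Prop
  | base {n : ℕ} {K : Set (Euc n)} : Body K → WeakPoincare A (unif K) → Sectional A s 0 K
  | up {h n : ℕ} {K : Set (Euc n)} : Sectional A s h K → Sectional A s (h + 1) K
  | image {h m n : ℕ} {K : Set (Euc m)} (T : Euc m →ₗ[ℝ] Euc n) (w : Euc n) : m ≤ n + s →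
      Function.Surjective T → Sectional A s h K →
      Sectional A s (h + 1) ((fun x => w + T x) '' K)
  | lift {h m n : ℕ} {K : Set (Euc m)} (T : Euc m →ₗ[ℝ] Euc n) : m ≤ n + s →
      Function.Surjective T → Body K → Sectional A s h (T '' K) → Sectional A s (h + 1) K
  | large {h N j n : ℕ} {K : Set (Euc n)} (e : (Euc N × Euc j) ≃ₗ[ℝ] Euc n) (t : Euc j) : j ≤ s →
      Sectional A s h K → (∀ t', volume (fibre e K t') ≤ s * volume (fibre e K t)) →
      Sectional A s (h + 1) (fibre e K t)
  | extend {h N j n : ℕ} {K : Set (Euc n)} (e : (Euc N × Euc j) ≃ₗ[ℝ] Euc n) (t : Euc j) : j ≤ s →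
      Body K → (∀ t', volume (fibre e K t') ≤ s * volume (fibre e K t)) →
      Sectional A s h (fibre e K t) → Sectional A s (h + 1) K
  | central {h N j n : ℕ} {K : Set (Euc n)} (e : (Euc N × Euc j) ≃ₗ[ℝ] Euc n) (t : Euc j) : j ≤ s →
      Sectional A s h K → (∀ θ : Euc j, ∫ z, ⟪(e.symm z).2, θ⟫_ℝ ∂(unif K) = ⟪t, θ⟫_ℝ) →
      Sectional A s (h + 1) (fibre e K t)

/-- the Lebesgue measure of a Euclidean space -/
noncomputable def lebesgue (F : Type) [NormedAddCommGroup F] [InnerProductSpace ℝ F]
    [FiniteDimensional ℝ F] [MeasurableSpace F] [BorelSpace F] : Measure F := volume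

/-- the Lebesgue measure (of the Euclidean space `W`) of the section `Ω ∩ W` by a subspace `W` -/
noncomputable def areaIn {F : Type} [NormedAddCommGroup F] [InnerProductSpace ℝ F]
    [FiniteDimensional ℝ F] [MeasurableSpace F] [BorelSpace F] (W : Submodule ℝ F) (Ω : Set F) :
    ℝ≥0∞ := lebesgue W {y : W | (y : F) ∈ Ω}

section defs

variable {κ : Type} [Fintype κ]

open Classical in
/-- divergence of a vector field on `ℝ^κ` -/
noncomputable def divergence (X : EuclideanSpace ℝ κ → EuclideanSpace ℝ κ)
    (x : EuclideanSpace ℝ κ) : ℝ :=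
  ∑ i, fderiv ℝ X x (EuclideanSpace.single i 1) i

/-- `C¹` vector fields with compact support in `Ω` and `‖X‖ ≤ 1` -/
structure Test (Ω : Set (EuclideanSpace ℝ κ)) (X : EuclideanSpace ℝ κ → EuclideanSpace ℝ κ) :
    Prop where
  diff : ContDiff ℝ 1 X
  comp : HasCompactSupport X
  sub : tsupport X ⊆ Ω
  le : ∀ x, ‖X x‖ ≤ 1

/-- the (De Giorgi) perimeter `P(E; Ω)` of `E` relative to the open set `Ω` -/
noncomputable def perimeter (E Ω : Set (EuclideanSpace ℝ κ)) : ℝ≥0∞ :=
  ⨆ (X : EuclideanSpace ℝ κ → EuclideanSpace ℝ κ) (_ : Test Ω X),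
    ENNReal.ofReal (∫ x in E, divergence X x)

/-- the area (Lebesgue measure in the hyperplane `a^⊥`) of the central section of `Ω` by `a^⊥` -/
noncomputable def sectionArea (Ω : Set (EuclideanSpace ℝ κ)) (a : EuclideanSpace ℝ κ) : ℝ≥0∞ :=
  areaIn (Submodule.span ℝ {a})ᗮ Ω

/-- some central hyperplane section has area at most `C P(E; Ω)` for every measurable `E ⊆ Ω` with
`|E| = |Ω| / 2` -/
def HyperplaneBound (C : ℝ) (Ω : Set (EuclideanSpace ℝ κ)) : Prop :=
  ∃ a : EuclideanSpace ℝ κ, a ≠ 0 ∧ ∀ E : Set (EuclideanSpace ℝ κ), MeasurableSet E → E ⊆ Ω →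
    volume E = volume Ω / 2 → sectionArea Ω a ≤ ENNReal.ofReal C * perimeter E Ω

/-- the perimeter is the one used in the proof -/
theorem perimeter_eq (E Ω : Set (EuclideanSpace ℝ κ)) :
    Pool.Agent.W695.KH.per E Ω = perimeter E Ω := by
  unfold perimeter Pool.Agent.W695.KH.per
  refine iSup_congr fun X => ?_
  refine iSup_congr_Prop ⟨fun h => ⟨h.1, h.2.1, h.2.2.1, h.2.2.2⟩,
    fun h => ⟨h.diff, h.comp, h.sub, h.le⟩⟩ fun _ => rfl

end defs

theorem unif_prob {n : ℕ} {K : Set (Euc n)} (h1 : IsCompact K) (h3 : (interior K).Nonempty) :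
    IsProbabilityMeasure (unif K) :=
  Pool.Agent.R754.KG.un_prob (Pool.Agent.R755.KF.vol_ne h3) h1.measure_lt_top.ne

theorem cy_of {A : ℝ → ℝ} {s h n : ℕ} {K : Set (Euc n)} (H : Sectional A s h K) :
    Pool.Agent.N483.KM.Cy A 1 (1 / ((s : ℝ) + 1)) s s h n K := by
  have hε : (0 : ℝ) < 1 / ((s : ℝ) + 1) := by positivity
  induction H with
  | base hb h4 =>
    obtain ⟨h1, h2, h3⟩ := hb
    have hp := unif_prob h1 h3
    obtain ⟨B, hB⟩ := Pool.Agent.R755.KS.un_bdd h1
    exact .base _ _ h1 h2 h3 (Pool.Agent.R755.KS.km_of_wpf (μ := unif _) hB h4)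
  | up _ ih => exact .up _ _ _ ih
  | image T w hm hT _ ih => exact .image _ _ _ _ T w hm hT ih
  | lift T hm hT hb _ ih => exact .lift _ _ _ _ T hm hT hb.comp hb.conv hb.int ih
  | large e t hj _ ht ih =>
    obtain ⟨h1, h2, h3⟩ := Pool.Agent.N483.KM.cy_body Pool.Agent.N483.KM.cclR one_pos hε ih
    exact .sec _ _ _ _ _ e t hj ih
      (Pool.Agent.N483.KM.large_of (Pool.Agent.R755.KS.cb_pre e h1 h2 h3) ht)
  | extend e t hj hb ht _ ih =>
    exact .ext _ _ _ _ _ e t hj hb.comp hb.conv hb.int
      (Pool.Agent.N483.KM.large_of (Pool.Agent.R755.KS.cb_pre e hb.comp hb.conv hb.int) ht) ih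
  | central e t hj _ ht ih =>
    obtain ⟨h1, h2, h3⟩ := Pool.Agent.N483.KM.cy_body Pool.Agent.N483.KM.cclR one_pos hε ih
    exact .bar _ _ _ _ _ e t hj ih
      (Pool.Agent.N483.KM.bar_of e (Pool.Agent.R755.KS.cb_pre e h1 h2 h3) ht)

/-- large fibres are bodies -/
theorem fibre_body {N j n s : ℕ} (e : (Euc N × Euc j) ≃ₗ[ℝ] Euc n) {K : Set (Euc n)} {t : Euc j}
    (hK : Body K) (ht : ∀ t', volume (fibre e K t') ≤ s * volume (fibre e K t)) :
    Body (fibre e K t) := by
  have hF := Pool.Agent.R755.KS.cb_pre e hK.comp hK.conv hK.int
  have hv := Pool.Agent.N483.KM.large_pos (by positivity : (0 : ℝ) < 1 / ((s : ℝ) + 1)) hF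
    (Pool.Agent.N483.KM.large_of hF ht)
  exact ⟨Pool.Agent.R755.KF.sl_comp hF t, Pool.Agent.R755.KF.sl_conv hF t,
    Pool.Agent.R755.KF.int_of_vol (Pool.Agent.R755.KF.sl_conv hF t) hv⟩

/-- from the functional inequality to central sections -/
theorem hyper_of : ∀ c : ℝ, 0 < c → ∃ C : ℝ, 0 < C ∧ ∀ (n : ℕ) (P : Set (Euc n)), 1 ≤ n →
    IsCompact P → Convex ℝ P → (interior P).Nonempty →
    Pool.Agent.Y506.RG.Star c (Pool.Agent.Y506.PV.ind P) → (∀ x ∈ P, -x ∈ P) →
    HyperplaneBound C (interior P) := by
  intro c hc
  obtain ⟨C, hC, H'⟩ := Pool.Agent.Y151.PV.hyp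
  refine ⟨C * c, by positivity, fun n P hn h1 h2 h3 h4 hs => ?_⟩
  have hcl : closure (interior P) = P := by
    rw [h2.closure_interior_eq_closure_of_nonempty_interior h3, h1.isClosed.closure_eq]
  have hsi : ∀ x ∈ interior P, -x ∈ interior P := by
    intro x hx
    have hop : IsOpen ((fun y => -y) ⁻¹' interior P) := isOpen_interior.preimage continuous_neg
    have hsub : (fun y => -y) ⁻¹' interior P ⊆ P := by
      intro y hy
      have := hs _ (interior_subset hy)
      rwa [neg_neg] at this
    exact interior_maximal hsub hop (by simpa using hx)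
  have h0 : (0 : Euc n) ∈ interior P := by
    obtain ⟨x, hx⟩ := h3
    have h := h2.interior hx (hsi x hx) (by norm_num : (0 : ℝ) ≤ 1 / 2)
      (by norm_num : (0 : ℝ) ≤ 1 / 2) (by norm_num)
    rwa [smul_neg, add_neg_cancel] at h
  obtain ⟨a, ha, h⟩ := H' n hn (interior P) isOpen_interior h2.interior
    (h1.isBounded.subset interior_subset) h0 hsi c hc (by rw [hcl]; exact h4)
  refine ⟨a, ha, fun E hE hEΩ hvol => ?_⟩
  rw [← perimeter_eq]
  by_cases hp : Pool.Agent.W695.KH.per E (interior P) = ⊤
  · rw [hp, ENNReal.mul_top (ENNReal.ofReal_pos.2 (by positivity)).ne']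
    exact le_top
  · refine (h E hE hEΩ hvol _ (Pool.Agent.W695.KH.perLe_toReal E _ hp)).trans (le_of_eq ?_)
    rw [ENNReal.ofReal_mul (by positivity), ENNReal.ofReal_toReal hp]

/-- **The hyperplane conjecture for large sections and extensions.** For all functions `A : ℝ → ℝ` and all `s, h` there
is a constant `C > 0` such that for all `n ≥ 1` and all symmetric bodies `K ⊂ ℝⁿ` of the class
`Sectional A s h`, the interior `Ω` of `K` has a central hyperplane section `Ω ∩ a^⊥` with
`H_{n-1}(Ω ∩ a^⊥) ≤ C P(E; Ω)` for every measurable `E ⊆ Ω` with `|E| = |Ω| / 2`. -/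
theorem result : ∀ (A : ℝ → ℝ) (s h : ℕ), ∃ C : ℝ, 0 < C ∧
    ∀ (n : ℕ) (K : Set (Euc n)), 1 ≤ n → Sectional A s h K → (∀ x ∈ K, -x ∈ K) →
    HyperplaneBound C (interior K) := by
  intro A s h
  have hε : (0 : ℝ) < 1 / ((s : ℝ) + 1) := by positivity
  obtain ⟨c, hc, H⟩ := Pool.Agent.N483.KM.cyR Pool.Agent.N483.KM.cclR A 1 (1 / ((s : ℝ) + 1)) one_pos hε s s h
  obtain ⟨C, hC, H'⟩ := hyper_of c hc
  refine ⟨C, hC, fun n K hn hK hs => ?_⟩
  obtain ⟨h1, h2, h3, h4⟩ := H n K (cy_of hK)
  exact H' n K hn h1 h2 h3 h4 hs

/-- all bodies of the class satisfy weak Poincare inequalities -/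
theorem weakPoincare : ∀ (A : ℝ → ℝ) (s h : ℕ), ∃ A' : ℝ → ℝ, ∀ (n : ℕ) (K : Set (Euc n)),
    Sectional A s h K → Body K ∧ WeakPoincare A' (unif K) := by
  intro A s h
  have hε : (0 : ℝ) < 1 / ((s : ℝ) + 1) := by positivity
  obtain ⟨A', -, H⟩ := Pool.Agent.N483.KM.cy_km Pool.Agent.N483.KM.cclR A 1 (1 / ((s : ℝ) + 1)) one_pos hε s s h
  refine ⟨A', fun n K hK => ?_⟩
  obtain ⟨h1, h2, h3, h4⟩ := H n K (cy_of hK)
  have hp := unif_prob h1 h3
  obtain ⟨B, hB⟩ := Pool.Agent.R755.KS.un_bdd h1
  exact ⟨⟨h1, h2, h3⟩, Pool.Agent.R755.KS.wpf_of_km (μ := unif K) hB h4⟩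

/-- The direct consequence for central sections of a symmetric body: if `K = -K ⊂ ℝ^N × ℝ^j`, `j ≤ s`,
satisfies `WeakPoincare A` then the central section `K_0` has the required central hyperplane section, with a constant
which depends on `A` and `s`. -/
theorem central_section : ∀ (A : ℝ → ℝ) (s : ℕ), ∃ C : ℝ, 0 < C ∧ ∀ (N j n : ℕ)
    (e : (Euc N × Euc j) ≃ₗ[ℝ] Euc n) (K : Set (Euc n)), 1 ≤ N → j ≤ s → Body K →
    WeakPoincare A (unif K) → (∀ x ∈ K, -x ∈ K) → HyperplaneBound C (interior (fibre e K 0)) := by
  intro A s
  obtain ⟨C, hC, H⟩ := result A s 1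
  refine ⟨C, hC, fun N j n e K hN hj hK hA hs => H _ _ hN (.central e 0 hj (.base hK hA) ?_) ?_⟩
  · intro θ
    have hm : MeasurableEmbedding (fun z : Euc n => -z) := (Homeomorph.neg _).measurableEmbedding
    have hv : Measure.map (fun z : Euc n => -z) (unif K) = unif K := by
      unfold unif
      rw [Measure.map_smul]
      congr 1
      have h1 : (fun z : Euc n => -z) ⁻¹' K = K := by
        ext z
        exact ⟨fun h => by simpa using hs _ h, fun h => hs _ h⟩
      have h2 := hm.restrict_map (volume : Measure (Euc n)) K
      rw [h1] at h2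
      rw [← h2]
      congr 1
      exact Measure.map_neg_eq_self (volume : Measure (Euc n))
    have h1 : ∫ z, ⟪(e.symm z).2, θ⟫_ℝ ∂(unif K) = -∫ z, ⟪(e.symm z).2, θ⟫_ℝ ∂(unif K) := by
      conv_lhs => rw [← hv, hm.integral_map]
      rw [← integral_neg]
      congr 1
      funext z
      simp
    rw [inner_zero_left]
    linarith
  · intro x hx
    change e (-x, 0) ∈ K
    have h1 : e (-x, 0) = -e (x, 0) := by
      rw [← map_neg]
      simp
    rw [h1]
    exact hs _ hx

/-- The direct consequence for extensions: if `K = -K ⊂ ℝ^N × ℝ^j`, `j ≤ s`, is a convex body and one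
section `K_t` satisfies `WeakPoincare A` and no parallel section is larger than `s |K_t|`, then `K` has
the required central hyperplane section, with a constant which depends on `A` and `s`. -/
theorem extension : ∀ (A : ℝ → ℝ) (s : ℕ), ∃ C : ℝ, 0 < C ∧ ∀ (N j n : ℕ)
    (e : (Euc N × Euc j) ≃ₗ[ℝ] Euc n) (K : Set (Euc n)) (t : Euc j), 1 ≤ n → j ≤ s → Body K →
    (∀ x ∈ K, -x ∈ K) → WeakPoincare A (unif (fibre e K t)) →
    (∀ t', volume (fibre e K t') ≤ s * volume (fibre e K t)) → HyperplaneBound C (interior K) := by
  intro A s
  obtain ⟨C, hC, H⟩ := result A s 1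
  exact ⟨C, hC, fun N j n e K t hn hj hK hs hA ht =>
    H _ _ hn (.extend e t hj hK ht (.base (fibre_body e hK ht) hA)) hs⟩

end Pool.Agent.Results.MP_dc1397_gt.LargeSections
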